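import Pool.Agent.Helper44.GF.Defs

/-!
# Module GLIM: approximation of the exponent on the infinite grid by finite models
-/

open Finset MeasureTheory Filter Topology

namespace Pool.Agent.Helper44.GF

/-- The intensity of the atom with index `l`. -/
noncomputable def glim_z (ρ ε c : ℝ) (l : ℤ) : ℝ := c * ρ ^ (-((1 - ε) * (l : ℝ)))

/-- The contribution of the atom with index `l`. -/
noncomputable def glim_f (ρ ε c u : ℝ) (l : ℤ) : ℝ :=
  glim_z ρ ε c l * (1 - Real.exp (-(u * ρ ^ (l : ℝ))))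

theorem glim_Lr_eq (ρ ε c u : ℝ) : Lr ρ ε c u = ∑' l : ℤ, glim_f ρ ε c u l := rfl

theorem glim_z_pos {ρ ε c : ℝ} (hρ : 1 < ρ) (hc : 0 < c) (l : ℤ) : 0 < glim_z ρ ε c l :=
  mul_pos hc (Real.rpow_pos_of_pos (by linarith) _)

theorem glim_z_neg {ρ ε c : ℝ} (hρ : 1 < ρ) (hc : 0 < c) : ∀ l : ℤ, 0 ≤ glim_z ρ ε c l :=
  fun l => (glim_z_pos hρ hc l).le

/-- The elementary inequality for the logarithm, lower bound. -/
theorem glim_log_lower {t : ℝ} (ht : 0 ≤ t) : t - t ^ 2 / 2 ≤ Real.log (1 + t) := by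
  have h := Real.le_log_one_add_of_nonneg ht
  refine le_trans ?_ h
  rw [le_div_iff₀ (by linarith)]
  nlinarith [pow_nonneg ht 3, pow_nonneg ht 2]

/-- The elementary inequality for the logarithm, upper bound. -/
theorem glim_log_upper {t : ℝ} (ht : 0 ≤ t) : Real.log (1 + t) ≤ t := by
  have h := Real.log_le_sub_one_of_pos (show 0 < 1 + t by linarith)
  linarith

/-- The two-sided estimate for one atom. -/
theorem glim_atom {w x : ℝ} (hw : 0 ≤ w) (hx0 : 0 ≤ x) (hx1 : x ≤ 1) :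
    |Real.log ((1 + w) / (1 + w * x)) - w * (1 - x)| ≤ w ^ 2 := by
  have hwx : 0 ≤ w * x := mul_nonneg hw hx0
  have hwx1 : w * x ≤ w := by nlinarith
  have hsq : (w * x) ^ 2 ≤ w ^ 2 := pow_le_pow_left₀ hwx hwx1 2
  rw [Real.log_div (by linarith) (by linarith), abs_le]
  have h1 := glim_log_lower hw
  have h2 := glim_log_upper hw
  have h3 := glim_log_lower hwx
  have h4 := glim_log_upper hwx
  constructor
  · nlinarith [sq_nonneg w]
  · nlinarith [sq_nonneg w]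

/-- The lower estimate for one atom. -/
theorem glim_atom_lower {w x : ℝ} (hw : 0 ≤ w) (hw1 : w ≤ 1) (hx0 : 0 ≤ x) (hx1 : x ≤ 1) :
    w * (1 - x) / 2 ≤ Real.log ((1 + w) / (1 + w * x)) := by
  have hwx : 0 ≤ w * x := mul_nonneg hw hx0
  have hpos : 0 < (1 + w) / (1 + w * x) := div_pos (by linarith) (by linarith)
  have h := Real.one_sub_inv_le_log_of_pos hpos
  refine le_trans ?_ h
  rw [inv_div]
  have h5 : 1 - (1 + w * x) / (1 + w) = w * (1 - x) / (1 + w) := by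
    field_simp
    ring
  rw [h5]
  exact div_le_div_of_nonneg_left (mul_nonneg hw (by linarith)) (by linarith) (by linarith)

/-- The number of copies. -/
noncomputable def glim_M (ρ ε c : ℝ) (N : ℕ) : ℕ :=
  ⌈(2 * (N : ℝ) + 1) * ((N : ℝ) + 1) * (1 + (c * ρ ^ ((1 - ε) * (N : ℝ))) ^ 2)⌉₊

theorem glim_M_le (ρ ε c : ℝ) (N : ℕ) :
    (2 * (N : ℝ) + 1) * ((N : ℝ) + 1) * (1 + (c * ρ ^ ((1 - ε) * (N : ℝ))) ^ 2)
      ≤ (glim_M ρ ε c N : ℝ) := Nat.le_ceil _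

theorem glim_M_one (ρ ε c : ℝ) (N : ℕ) : 1 ≤ glim_M ρ ε c N := by
  have h := glim_M_le ρ ε c N
  have hN : (0 : ℝ) ≤ N := Nat.cast_nonneg N
  have h1 : (1 : ℝ) ≤ (2 * (N : ℝ) + 1) * ((N : ℝ) + 1) := by nlinarith
  have h2 : (1 : ℝ) ≤ 1 + (c * ρ ^ ((1 - ε) * (N : ℝ))) ^ 2 := by
    nlinarith [sq_nonneg (c * ρ ^ ((1 - ε) * (N : ℝ)))]
  have h3 : (1 : ℝ) ≤ (glim_M ρ ε c N : ℝ) := le_trans (one_le_mul_of_one_le_of_one_le h1 h2) h
  exact_mod_cast h3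

/-- For indices at least `-N` the intensity is at most `c ρ^{(1-ε) N}`. -/
theorem glim_z_le {ρ ε c : ℝ} (hρ : 1 < ρ) (hε : ε ≤ 1 / 2) (hc : 0 < c) (N : ℕ) (l : ℤ)
    (hl : -(N : ℤ) ≤ l) : glim_z ρ ε c l ≤ c * ρ ^ ((1 - ε) * (N : ℝ)) := by
  unfold glim_z
  refine mul_le_mul_of_nonneg_left ?_ hc.le
  refine Real.rpow_le_rpow_of_exponent_le hρ.le ?_
  have h1 : (-(N : ℝ)) ≤ (l : ℝ) := by exact_mod_cast hl
  nlinarith

theorem glim_w_le_one {ρ ε c : ℝ} (hρ : 1 < ρ) (hε : ε ≤ 1 / 2) (hc : 0 < c) (N : ℕ) (l : ℤ)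
    (hl : -(N : ℤ) ≤ l) : glim_z ρ ε c l / (glim_M ρ ε c N : ℝ) ≤ 1 := by
  have hM : (0 : ℝ) < glim_M ρ ε c N := by
    exact_mod_cast (lt_of_lt_of_le Nat.zero_lt_one (glim_M_one ρ ε c N))
  rw [div_le_one hM]
  have h1 := glim_z_le hρ hε hc N l hl
  have h2 := glim_M_le ρ ε c N
  have hN : (0 : ℝ) ≤ N := Nat.cast_nonneg N
  have h3 : (1 : ℝ) ≤ (2 * (N : ℝ) + 1) * ((N : ℝ) + 1) := by nlinarith
  set B := c * ρ ^ ((1 - ε) * (N : ℝ)) with hB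
  have h4 : B ≤ 1 + B ^ 2 := by nlinarith [sq_nonneg (B - 1 / 2)]
  have h5 : 1 + B ^ 2 ≤ (2 * (N : ℝ) + 1) * ((N : ℝ) + 1) * (1 + B ^ 2) :=
    le_mul_of_one_le_left (by positivity) h3
  linarith

/-- The finite sum over the grid. -/
theorem glim_fin_sum (N : ℕ) (g : ℤ → ℝ) :
    ∑ i : Fin (2 * N + 1), g (((i : ℕ) : ℤ) - (N : ℤ)) = ∑ l ∈ Finset.Icc (-(N : ℤ)) N, g l := by
  refine Finset.sum_bij (fun i _ => ((i : ℕ) : ℤ) - (N : ℤ)) ?_ ?_ ?_ ?_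
  · intro i _
    have := i.2
    rw [Finset.mem_Icc]
    constructor <;> omega
  · intro i _ j _ hij
    apply Fin.ext
    have : ((i : ℕ) : ℤ) - (N : ℤ) = ((j : ℕ) : ℤ) - (N : ℤ) := hij
    omega
  · intro l hl
    rw [Finset.mem_Icc] at hl
    refine ⟨⟨(l + N).toNat, by omega⟩, Finset.mem_univ _, ?_⟩
    show ((((l + N).toNat : ℕ) : ℤ)) - (N : ℤ) = l
    omega
  · intro i _
    rfl

/-- The Laplace exponent of the finite model as a sum over the grid. -/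
theorem glim_lam_eq {ρ : ℝ} (ε c : ℝ) (N M : ℕ) (u : ℝ) :
    lam (gd ρ ε c N) (gr ρ N M) (gz ρ ε c N M) u = gd ρ ε c N * u
      + ∑ l ∈ Finset.Icc (-(N : ℤ)) N, (M : ℝ) * Real.log ((1 + glim_z ρ ε c l / M)
        / (1 + glim_z ρ ε c l / M * Real.exp (-(u * ρ ^ (l : ℝ))))) := by
  unfold lam
  congr 1
  rw [← glim_fin_sum N (fun l => (M : ℝ) * Real.log ((1 + glim_z ρ ε c l / M)
        / (1 + glim_z ρ ε c l / M * Real.exp (-(u * ρ ^ (l : ℝ)))))), Fintype.sum_prod_type]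
  refine Finset.sum_congr rfl ?_
  intro i _
  have hz : ∀ j : Fin M, gz ρ ε c N M (i, j) = glim_z ρ ε c (((i : ℕ) : ℤ) - (N : ℤ)) / M := by
    intro j
    unfold gz glim_z
    push_cast
    rfl
  have hr : ∀ j : Fin M, gr ρ N M (i, j) = ρ ^ (((((i : ℕ) : ℤ) - (N : ℤ) : ℤ)) : ℝ) := by
    intro j
    unfold gr
    rw [Real.rpow_intCast]
  simp_rw [hz, hr]
  rw [Finset.sum_const, Finset.card_univ, Fintype.card_fin, nsmul_eq_mul]

/-- The Poisson version. -/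
noncomputable def glim_P (ρ ε c : ℝ) (N : ℕ) (u : ℝ) : ℝ :=
  gd ρ ε c N * u + ∑ l ∈ Finset.Icc (-(N : ℤ)) N, glim_f ρ ε c u l

theorem glim_exp_bd {ρ u : ℝ} (hρ : 1 < ρ) (hu : 0 ≤ u) (l : ℤ) :
    0 ≤ Real.exp (-(u * ρ ^ (l : ℝ))) ∧ Real.exp (-(u * ρ ^ (l : ℝ))) ≤ 1 := by
  refine ⟨(Real.exp_pos _).le, ?_⟩
  rw [Real.exp_le_one_iff]
  have := mul_nonneg hu (Real.rpow_pos_of_pos (show 0 < ρ by linarith) (l : ℝ)).le
  linarith

theorem glim_f_nonneg {ρ ε c u : ℝ} (hρ : 1 < ρ) (hc : 0 < c) (hu : 0 ≤ u) (l : ℤ) :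
    0 ≤ glim_f ρ ε c u l :=
  mul_nonneg (glim_z_pos hρ hc l).le (by linarith [(glim_exp_bd hρ hu l).2])

theorem glim_f_le_z {ρ ε c u : ℝ} (hρ : 1 < ρ) (hc : 0 < c) (l : ℤ) :
    glim_f ρ ε c u l ≤ glim_z ρ ε c l := by
  unfold glim_f
  have h1 := (glim_z_pos (ε := ε) hρ hc l)
  have h2 := Real.exp_pos (-(u * ρ ^ (l : ℝ)))
  nlinarith [mul_pos h1 h2]

/-- Comparison of the finite model with the Poisson version. -/
theorem glim_lam_P {ρ ε c : ℝ} (hρ : 1 < ρ) (hε : ε ≤ 1 / 2) (hc : 0 < c) (N : ℕ)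
    {u : ℝ} (hu : 0 ≤ u) :
    |lam (gd ρ ε c N) (gr ρ N (glim_M ρ ε c N)) (gz ρ ε c N (glim_M ρ ε c N)) u
      - glim_P ρ ε c N u| ≤ 1 / ((N : ℝ) + 1) := by
  have hM : (0 : ℝ) < glim_M ρ ε c N := by
    exact_mod_cast (lt_of_lt_of_le Nat.zero_lt_one (glim_M_one ρ ε c N))
  have hMl := glim_M_le ρ ε c N
  rw [glim_lam_eq]
  unfold glim_P
  rw [add_sub_add_left_eq_sub, ← Finset.sum_sub_distrib]
  refine le_trans (Finset.abs_sum_le_sum_abs _ _) ?_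
  set M : ℝ := (glim_M ρ ε c N : ℝ) with hMdef
  set B := c * ρ ^ ((1 - ε) * (N : ℝ)) with hB
  have hterm : ∀ l ∈ Finset.Icc (-(N : ℤ)) N,
      |M * Real.log ((1 + glim_z ρ ε c l / M)
        / (1 + glim_z ρ ε c l / M * Real.exp (-(u * ρ ^ (l : ℝ))))) - glim_f ρ ε c u l|
      ≤ B ^ 2 / M := by
    intro l hl
    rw [Finset.mem_Icc] at hl
    have hz := glim_z_pos (ε := ε) hρ hc l
    have hzB := glim_z_le hρ hε hc N l hl.1
    have hb := glim_exp_bd hρ hu l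
    have h1 := glim_atom (w := glim_z ρ ε c l / M) (div_nonneg hz.le hM.le) hb.1 hb.2
    have h2 : M * Real.log ((1 + glim_z ρ ε c l / M)
        / (1 + glim_z ρ ε c l / M * Real.exp (-(u * ρ ^ (l : ℝ))))) - glim_f ρ ε c u l
        = M * (Real.log ((1 + glim_z ρ ε c l / M)
        / (1 + glim_z ρ ε c l / M * Real.exp (-(u * ρ ^ (l : ℝ)))))
          - glim_z ρ ε c l / M * (1 - Real.exp (-(u * ρ ^ (l : ℝ))))) := by
      unfold glim_f
      field_simp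
    rw [h2, abs_mul, abs_of_pos hM]
    have h3 : (glim_z ρ ε c l) ^ 2 ≤ B ^ 2 := pow_le_pow_left₀ hz.le hzB 2
    calc M * |_| ≤ M * (glim_z ρ ε c l / M) ^ 2 := mul_le_mul_of_nonneg_left h1 hM.le
      _ = (glim_z ρ ε c l) ^ 2 / M := by
        field_simp
      _ ≤ B ^ 2 / M := div_le_div_of_nonneg_right h3 hM.le
  refine le_trans (Finset.sum_le_sum hterm) ?_
  rw [Finset.sum_const, Int.card_Icc, nsmul_eq_mul]
  have hcard : ((((N : ℤ) + 1 - -(N : ℤ)).toNat : ℕ) : ℝ) = 2 * (N : ℝ) + 1 := by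
    have : ((N : ℤ) + 1 - -(N : ℤ)).toNat = 2 * N + 1 := by omega
    rw [this]
    push_cast
    ring
  rw [hcard]
  have hN : (0 : ℝ) ≤ N := Nat.cast_nonneg N
  rw [← mul_div_assoc, div_le_div_iff₀ hM (by linarith)]
  nlinarith [mul_nonneg (mul_nonneg (show (0 : ℝ) ≤ 2 * (N : ℝ) + 1 by linarith)
    (show (0 : ℝ) ≤ (N : ℝ) + 1 by linarith)) zero_le_one]

/-- The drift is positive. -/
theorem glim_gd_pos {ρ ε c : ℝ} (hρ : 1 < ρ) (hε : 0 < ε) (hc : 0 < c) (N : ℕ) :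
    0 < gd ρ ε c N := by
  unfold gd
  have h1 : 1 < ρ ^ ε := Real.one_lt_rpow hρ hε
  exact div_pos (mul_pos hc (Real.rpow_pos_of_pos (by linarith) _)) (by linarith)

/-- The recursion for the drift. -/
theorem glim_gd_succ {ρ ε c : ℝ} (hρ : 1 < ρ) (hε : 0 < ε) (N : ℕ) :
    gd ρ ε c N = gd ρ ε c (N + 1) + c * ρ ^ (-(ε * ((N : ℝ) + 1))) := by
  unfold gd
  have h1 : 1 < ρ ^ ε := Real.one_lt_rpow hρ hε
  have h0 : 0 < ρ := by linarith
  have h2 : ρ ^ (-(ε * (N : ℝ))) = ρ ^ ε * ρ ^ (-(ε * ((N : ℝ) + 1))) := by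
    rw [← Real.rpow_add h0]
    congr 1
    ring
  have h3 : ρ ^ ε - 1 ≠ 0 := by linarith
  rw [h2]
  push_cast
  field_simp
  ring

/-- The drift tends to zero. -/
theorem glim_gd_tendsto {ρ ε c : ℝ} (hρ : 1 < ρ) (hε : 0 < ε) :
    Tendsto (fun N => gd ρ ε c N) atTop (𝓝 0) := by
  have h0 : 0 < ρ := by linarith
  have h1 : 1 < ρ ^ ε := Real.one_lt_rpow hρ hε
  have h2 : Tendsto (fun N : ℕ => ((ρ ^ ε)⁻¹) ^ N) atTop (𝓝 0) :=
    tendsto_pow_atTop_nhds_zero_of_lt_one (by positivity) (inv_lt_one_of_one_lt₀ h1)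
  have h3 : (fun N => gd ρ ε c N) = fun N : ℕ => c * ((ρ ^ ε)⁻¹) ^ N / (ρ ^ ε - 1) := by
    funext N
    unfold gd
    congr 2
    rw [Real.rpow_neg h0.le, Real.rpow_mul h0.le, Real.rpow_natCast, inv_pow]
  rw [h3]
  have h4 := (h2.const_mul c).div_const (ρ ^ ε - 1)
  simpa using h4

/-- Enlarging the window by one. -/
theorem glim_Icc_succ (N : ℕ) (g : ℤ → ℝ) :
    ∑ l ∈ Finset.Icc (-(((N + 1 : ℕ)) : ℤ)) (((N + 1 : ℕ)) : ℤ), g l
      = (∑ l ∈ Finset.Icc (-(N : ℤ)) N, g l) + g ((N : ℤ) + 1) + g (-((N : ℤ) + 1)) := by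
  have h1 : Finset.Icc (-(((N + 1 : ℕ)) : ℤ)) (((N + 1 : ℕ)) : ℤ)
      = insert ((N : ℤ) + 1) (insert (-((N : ℤ) + 1)) (Finset.Icc (-(N : ℤ)) N)) := by
    ext l
    simp only [Finset.mem_insert, Finset.mem_Icc]
    push_cast
    omega
  rw [h1, Finset.sum_insert, Finset.sum_insert]
  · ring
  · rw [Finset.mem_Icc]
    omega
  · rw [Finset.mem_insert, Finset.mem_Icc]
    omega

/-- The symmetric partial sums tend to the sum. -/
theorem glim_sym_tendsto {g : ℤ → ℝ} (hg : Summable g) :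
    Tendsto (fun N : ℕ => ∑ l ∈ Finset.Icc (-(N : ℤ)) N, g l) atTop (𝓝 (∑' l, g l)) := by
  refine hg.hasSum.comp ?_
  refine Filter.tendsto_atTop_finset_of_monotone ?_ ?_
  · intro a b hab l hl
    rw [Finset.mem_Icc] at hl ⊢
    have : (a : ℤ) ≤ b := by exact_mod_cast hab
    omega
  · intro l
    refine ⟨l.natAbs, ?_⟩
    rw [Finset.mem_Icc]
    omega

/-- The auxiliary quantity decreasing to `Lr`. -/
noncomputable def glim_T (ρ ε c u : ℝ) (N : ℕ) : ℝ :=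
  glim_P ρ ε c N u + c * ρ ^ (-((1 - ε) * (N : ℝ))) / (ρ ^ (1 - ε) - 1)

theorem glim_T_step {ρ ε c u : ℝ} (hρ : 1 < ρ) (hε : 0 < ε) (hε2 : ε ≤ 1 / 2) (hc : 0 < c)
    (N : ℕ) : glim_T ρ ε c u (N + 1) ≤ glim_T ρ ε c u N := by
  have h0 : 0 < ρ := by linarith
  have h1 : 1 < ρ ^ (1 - ε) := Real.one_lt_rpow hρ (by linarith)
  unfold glim_T glim_P
  rw [glim_Icc_succ, glim_gd_succ (c := c) hρ hε N]
  -- the tail on the right
  have h2 : c * ρ ^ (-((1 - ε) * (N : ℝ))) / (ρ ^ (1 - ε) - 1)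
      = c * ρ ^ (-((1 - ε) * (((N + 1 : ℕ)) : ℝ))) / (ρ ^ (1 - ε) - 1)
        + glim_z ρ ε c ((N : ℤ) + 1) := by
    unfold glim_z
    have h3 : ρ ^ (-((1 - ε) * (N : ℝ))) = ρ ^ (1 - ε) * ρ ^ (-((1 - ε) * ((N : ℝ) + 1))) := by
      rw [← Real.rpow_add h0]
      congr 1
      ring
    have h4 : ρ ^ (1 - ε) - 1 ≠ 0 := by linarith
    rw [h3]
    push_cast
    field_simp
    ring
  have h5 := glim_f_le_z (u := u) (ε := ε) hρ hc ((N : ℤ) + 1)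
  -- the tail on the left
  have h6 : glim_f ρ ε c u (-((N : ℤ) + 1)) ≤ c * ρ ^ (-(ε * ((N : ℝ) + 1))) * u := by
    unfold glim_f glim_z
    have h7 : 1 - Real.exp (-(u * ρ ^ (((-((N : ℤ) + 1) : ℤ)) : ℝ)))
        ≤ u * ρ ^ (((-((N : ℤ) + 1) : ℤ)) : ℝ) := by
      have := Real.add_one_le_exp (-(u * ρ ^ (((-((N : ℤ) + 1) : ℤ)) : ℝ)))
      linarith
    have h8 : 0 ≤ c * ρ ^ (-((1 - ε) * (((-((N : ℤ) + 1) : ℤ)) : ℝ))) :=
      mul_nonneg hc.le (Real.rpow_pos_of_pos h0 _).le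
    refine le_trans (mul_le_mul_of_nonneg_left h7 h8) (le_of_eq ?_)
    have h9 : ρ ^ (-(ε * ((N : ℝ) + 1)))
        = ρ ^ (-((1 - ε) * (((-((N : ℤ) + 1) : ℤ)) : ℝ))) * ρ ^ (((-((N : ℤ) + 1) : ℤ)) : ℝ) := by
      rw [← Real.rpow_add h0]
      congr 1
      push_cast
      ring
    rw [h9]
    ring
  rw [h2]
  linarith

theorem glim_T_tendsto {ρ ε c u : ℝ} (hρ : 1 < ρ) (hε : 0 < ε) (hε2 : ε ≤ 1 / 2)
    (hs : Summable fun l : ℤ => glim_f ρ ε c u l) :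
    Tendsto (glim_T ρ ε c u) atTop (𝓝 (Lr ρ ε c u)) := by
  have h0 : 0 < ρ := by linarith
  have h1 : 1 < ρ ^ (1 - ε) := Real.one_lt_rpow hρ (by linarith)
  have h2 := glim_sym_tendsto hs
  have h3 := (glim_gd_tendsto (c := c) hρ hε).mul_const u
  have h4 : Tendsto (fun N : ℕ => ((ρ ^ (1 - ε))⁻¹) ^ N) atTop (𝓝 0) :=
    tendsto_pow_atTop_nhds_zero_of_lt_one (by positivity) (inv_lt_one_of_one_lt₀ h1)
  have h5 := (h4.const_mul c).div_const (ρ ^ (1 - ε) - 1)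
  have h6 : (fun N : ℕ => c * ρ ^ (-((1 - ε) * (N : ℝ))) / (ρ ^ (1 - ε) - 1))
      = fun N : ℕ => c * ((ρ ^ (1 - ε))⁻¹) ^ N / (ρ ^ (1 - ε) - 1) := by
    funext N
    congr 2
    rw [Real.rpow_neg h0.le, Real.rpow_mul h0.le, Real.rpow_natCast, inv_pow]
  rw [← h6] at h5
  have h7 := (h3.add h2).add h5
  rw [glim_Lr_eq]
  have h8 : 0 * u + ∑' l : ℤ, glim_f ρ ε c u l + c * 0 / (ρ ^ (1 - ε) - 1)
      = ∑' l : ℤ, glim_f ρ ε c u l := by ring
  rw [h8] at h7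
  exact h7

/-- The Poisson version is at least `Lr` minus a constant. -/
theorem glim_P_lower {ρ ε c u : ℝ} (hρ : 1 < ρ) (hε : 0 < ε) (hε2 : ε ≤ 1 / 2) (hc : 0 < c)
    (hs : Summable fun l : ℤ => glim_f ρ ε c u l) (N : ℕ) :
    Lr ρ ε c u ≤ glim_P ρ ε c N u + c / (ρ ^ (1 - ε) - 1) := by
  have h0 : 0 < ρ := by linarith
  have h1 : 1 < ρ ^ (1 - ε) := Real.one_lt_rpow hρ (by linarith)
  have hanti : Antitone (glim_T ρ ε c u) :=
    antitone_nat_of_succ_le (fun n => glim_T_step hρ hε hε2 hc n)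
  have h2 : Lr ρ ε c u ≤ glim_T ρ ε c u N :=
    hanti.le_of_tendsto (glim_T_tendsto hρ hε hε2 hs) N
  refine le_trans h2 ?_
  unfold glim_T
  have h3 : ρ ^ (-((1 - ε) * (N : ℝ))) ≤ 1 := by
    refine Real.rpow_le_one_of_one_le_of_nonpos hρ.le ?_
    have hN : (0 : ℝ) ≤ N := Nat.cast_nonneg N
    nlinarith
  have h4 : c * ρ ^ (-((1 - ε) * (N : ℝ))) / (ρ ^ (1 - ε) - 1) ≤ c / (ρ ^ (1 - ε) - 1) := by
    refine div_le_div_of_nonneg_right ?_ (by linarith)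
    nlinarith
  linarith

/-- The finite model is at least half of the Poisson version. -/
theorem glim_lam_lower {ρ ε c : ℝ} (hρ : 1 < ρ) (hε : 0 < ε) (hε2 : ε ≤ 1 / 2) (hc : 0 < c)
    (N : ℕ) {u : ℝ} (hu : 0 ≤ u) :
    glim_P ρ ε c N u / 2
      ≤ lam (gd ρ ε c N) (gr ρ N (glim_M ρ ε c N)) (gz ρ ε c N (glim_M ρ ε c N)) u := by
  have hM : (0 : ℝ) < glim_M ρ ε c N := by
    exact_mod_cast (lt_of_lt_of_le Nat.zero_lt_one (glim_M_one ρ ε c N))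
  rw [glim_lam_eq]
  unfold glim_P
  have h1 := mul_nonneg (glim_gd_pos hρ hε hc N).le hu
  rw [add_div, Finset.sum_div]
  refine add_le_add (by linarith) ?_
  refine Finset.sum_le_sum ?_
  intro l hl
  rw [Finset.mem_Icc] at hl
  have hz := glim_z_pos (ε := ε) hρ hc l
  have hb := glim_exp_bd hρ hu l
  have h2 := glim_atom_lower (w := glim_z ρ ε c l / (glim_M ρ ε c N : ℝ))
    (div_nonneg hz.le hM.le) (glim_w_le_one hρ hε2 hc N l hl.1) hb.1 hb.2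
  have h3 := mul_le_mul_of_nonneg_left h2 hM.le
  refine le_trans (le_of_eq ?_) h3
  unfold glim_f
  field_simp

/-- Nonnegativity of the exponent. -/
theorem glim_Lr_nonneg {ρ ε c u : ℝ} (hρ : 1 < ρ) (hc : 0 < c) (hu : 0 ≤ u) :
    0 ≤ Lr ρ ε c u := by
  rw [glim_Lr_eq]
  exact tsum_nonneg (fun l => glim_f_nonneg hρ hc hu l)

/-- Growth of the exponent. -/
theorem glim_Lr_growth {ρ ε c : ℝ} (hρ : 1 < ρ) (hε2 : ε ≤ 1 / 2)
    (hmono : ∀ u v, 0 ≤ u → u ≤ v → Lr ρ ε c u ≤ Lr ρ ε c v)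
    (hscale : ∀ u, 0 ≤ u → Lr ρ ε c (ρ * u) = ρ ^ (1 - ε) * Lr ρ ε c u)
    (hpos : 0 < Lr ρ ε c 1) {u : ℝ} (hu : 1 ≤ u) :
    (ρ ^ (1 - ε))⁻¹ * Lr ρ ε c 1 * Real.sqrt u ≤ Lr ρ ε c u := by
  have h0 : 0 < ρ := by linarith
  have h1 : 1 < ρ ^ (1 - ε) := Real.one_lt_rpow hρ (by linarith)
  obtain ⟨k, hk1, hk2⟩ := exists_nat_pow_near hu hρ
  have hpow : ∀ k : ℕ, Lr ρ ε c (ρ ^ k) = (ρ ^ (1 - ε)) ^ k * Lr ρ ε c 1 := by
    intro k
    induction k with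
    | zero => simp
    | succ k ih =>
      rw [pow_succ', hscale _ (pow_nonneg h0.le k), ih]
      ring
  have h2 : (ρ ^ (1 - ε)) ^ k * Lr ρ ε c 1 ≤ Lr ρ ε c u := by
    rw [← hpow]
    exact hmono _ _ (pow_nonneg h0.le k) hk1
  have h3 : Real.sqrt u ≤ (ρ ^ (1 - ε)) ^ (k + 1) := by
    rw [Real.sqrt_le_left (by positivity)]
    refine le_trans hk2.le ?_
    have h4 : ((ρ ^ (1 - ε)) ^ (k + 1)) ^ 2 = (ρ ^ (2 * (1 - ε))) ^ (k + 1) := by
      rw [← pow_mul, mul_comm (k + 1) 2, pow_mul, ← Real.rpow_natCast (ρ ^ (1 - ε)) 2,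
        ← Real.rpow_mul h0.le]
      congr 2
      push_cast
      ring
    rw [h4]
    refine pow_le_pow_left₀ h0.le ?_ (k + 1)
    calc ρ = ρ ^ (1 : ℝ) := (Real.rpow_one ρ).symm
      _ ≤ ρ ^ (2 * (1 - ε)) := Real.rpow_le_rpow_of_exponent_le hρ.le (by linarith)
  refine le_trans ?_ h2
  have h5 : (ρ ^ (1 - ε))⁻¹ * Lr ρ ε c 1 * Real.sqrt u
      ≤ (ρ ^ (1 - ε))⁻¹ * Lr ρ ε c 1 * (ρ ^ (1 - ε)) ^ (k + 1) :=
    mul_le_mul_of_nonneg_left h3 (by positivity)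
  refine le_trans h5 (le_of_eq ?_)
  rw [pow_succ]
  field_simp

/-- Continuity of the exponent of the finite model. -/
theorem glim_cont {Y : Type} [Fintype Y] (d : ℝ) (r z : Y → ℝ) (hz : ∀ y, 0 ≤ z y) :
    ContinuousOn (lam d r z) (Set.Ici 0) := by
  have h : Continuous (lam d r z) := by
    unfold lam
    refine (continuous_const.mul continuous_id).add ?_
    refine continuous_finsetSum _ ?_
    intro y _
    have hpos : ∀ u : ℝ, 0 < 1 + z y * Real.exp (-(u * r y)) := by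
      intro u
      have := mul_nonneg (hz y) (Real.exp_pos (-(u * r y))).le
      linarith
    refine Continuous.log ?_ ?_
    · refine Continuous.div continuous_const ?_ (fun u => (hpos u).ne')
      fun_prop
    · intro u
      have := hz y
      exact (div_pos (by linarith) (hpos u)).ne'
  exact h.continuousOn

theorem st_GLIM (h : ST_LR) : ST_GLIM := by
  intro ρ ε c hρ hε hε2 hc
  obtain ⟨hsum, -, hmono, hscale, hpos, -⟩ := h ρ ε c hρ hε (by linarith) hc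
  have hsum' : ∀ u, 0 ≤ u → Summable fun l : ℤ => glim_f ρ ε c u l := hsum
  have h0 : 0 < ρ := by linarith
  have h1 : 1 < ρ ^ (1 - ε) := Real.one_lt_rpow hρ (by linarith)
  set A : ℝ := (ρ ^ (1 - ε))⁻¹ * Lr ρ ε c 1 with hA
  have hA0 : 0 < A := by positivity
  set C0 : ℝ := c / (ρ ^ (1 - ε) - 1) with hC0
  refine ⟨glim_M ρ ε c, A / 2, C0 / 2 + A / 2, by linarith, glim_M_one ρ ε c, ?_, ?_, ?_, ?_⟩
  · intro N y
    have h2 := glim_w_le_one hρ hε2 hc N (((y.1 : ℕ) : ℤ) - (N : ℤ)) (by omega)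
    unfold glim_z at h2
    unfold gz
    push_cast at h2
    exact h2
  · intro N
    refine glim_cont _ _ _ ?_
    intro y
    unfold gz
    have := Real.rpow_pos_of_pos h0 (-((1 - ε) * (((y.1 : ℕ) : ℝ) - (N : ℝ))))
    positivity
  · intro N u hu
    have h2 := glim_lam_lower hρ hε hε2 hc N hu
    have h3 := glim_P_lower hρ hε hε2 hc (hsum' u hu) N
    have h4 : A * Real.sqrt u - A ≤ Lr ρ ε c u := by
      rcases le_or_gt 1 u with hu1 | hu1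
      · have := glim_Lr_growth hρ hε2 hmono hscale hpos hu1
        linarith
      · have h5 : Real.sqrt u ≤ 1 := Real.sqrt_le_one.mpr hu1.le
        have h6 := glim_Lr_nonneg (ε := ε) hρ hc hu
        nlinarith
    linarith
  · intro u hu
    have h2 : Tendsto (fun N => glim_P ρ ε c N u) atTop (𝓝 (Lr ρ ε c u)) := by
      have h3 := glim_sym_tendsto (hsum' u hu)
      have h4 := (glim_gd_tendsto (c := c) hρ hε).mul_const u
      have h5 := h4.add h3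
      rw [zero_mul, zero_add, ← glim_Lr_eq] at h5
      exact h5
    have h6 : Tendsto (fun N : ℕ => 1 / ((N : ℝ) + 1)) atTop (𝓝 0) :=
      tendsto_one_div_add_atTop_nhds_zero_nat
    have h7 : Tendsto (fun N => lam (gd ρ ε c N) (gr ρ N (glim_M ρ ε c N))
        (gz ρ ε c N (glim_M ρ ε c N)) u - glim_P ρ ε c N u) atTop (𝓝 0) := by
      refine squeeze_zero_norm (fun N => ?_) h6
      rw [Real.norm_eq_abs]
      exact glim_lam_P hρ hε2 hc N hu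
    have h8 := h7.add h2
    simp only [sub_add_cancel, zero_add] at h8
    exact h8

end Pool.Agent.Helper44.GF
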